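import Pool.Agent.Y377.IR.Stm

/-! Project IR (MP_c7af3c_ag), job IR-SIM: simplicity of the extension of a ring of functions on a
group by a fundamental matrix (`G_SIM`). -/

set_option autoImplicit false

namespace Pool.Agent.Y401.IR

open Pool.Agent.Y377.IR

/-- a surjective endomorphism of a noetherian ring is injective -/
lemma noeth_inj {R : Type} [CommRing R] [IsNoetherianRing R] (f : R →+* R)
    (hf : Function.Surjective f) : Function.Injective f := by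
  have hmono : Monotone (fun n : ℕ => RingHom.ker (f ^ n)) :=
    monotone_nat_of_le_succ fun n x hx => by
      rw [RingHom.mem_ker, RingHom.coe_pow] at hx ⊢
      rw [Function.iterate_succ_apply', hx, map_zero]
  obtain ⟨n, hn⟩ := monotone_stabilizes_iff_noetherian.2 ‹_› ⟨_, hmono⟩
  rw [injective_iff_map_eq_zero]
  intro x hx
  obtain ⟨y, rfl⟩ := hf.iterate n x
  have h1 : y ∈ RingHom.ker (f ^ (n + 1)) := by
    rw [RingHom.mem_ker, RingHom.coe_pow, Function.iterate_succ_apply', hx]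
  have h2 : RingHom.ker (f ^ n) = RingHom.ker (f ^ (n + 1)) := hn (n + 1) (Nat.le_succ n)
  rw [← h2, RingHom.mem_ker, RingHom.coe_pow] at h1
  exact h1

/-- points of a quotient over general points -/
lemma core (hL : G_LIFT) (R S : Type) [CommRing R] [CommRing S] [Algebra ℂ R] [Algebra ℂ S]
    [Algebra R S] [IsScalarTower ℂ R S] (hr : IsReduced R) (hn : IsNoetherianRing R)
    (hf : Algebra.FiniteType R S) (nt : Nontrivial R) (I : Ideal S)
    (hI : ∀ r : R, algebraMap R S r ∈ I → r = 0) :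
    ∃ s : R, s ≠ 0 ∧ ∀ φ : R →ₐ[ℂ] ℂ, φ s ≠ 0 → ∃ ψ : S →ₐ[ℂ] ℂ,
      (∀ r : R, ψ (algebraMap R S r) = φ r) ∧ ∀ x ∈ I, ψ x = 0 := by
  have h1 : Algebra.FiniteType R (S ⧸ I) :=
    hf.of_surjective (Ideal.Quotient.mkₐ R I) Ideal.Quotient.mk_surjective
  have h2 : Function.Injective (algebraMap R (S ⧸ I)) :=
    (injective_iff_map_eq_zero _).2 fun r hr => hI r (Ideal.Quotient.eq_zero_iff_mem.1 hr)
  obtain ⟨s, hs, h⟩ := hL R (S ⧸ I) hr hn h1 h2 nt
  refine ⟨s, hs, fun φ hφ => ?_⟩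
  obtain ⟨ψ, hψ⟩ := h φ hφ
  refine ⟨ψ.comp (Ideal.Quotient.mkₐ ℂ I), fun r => hψ r, fun x hx => ?_⟩
  have h3 : Ideal.Quotient.mkₐ ℂ I x = 0 := Ideal.Quotient.eq_zero_iff_mem.2 hx
  rw [AlgHom.comp_apply, h3, map_zero]

lemma core2 (hL : G_LIFT) {A : Type} [CommRing A] [Algebra ℂ A] [IsReduced A] [Nontrivial A]
    (R S : Subalgebra ℂ A) (hRS : R ≤ S) (hn : IsNoetherianRing R) (s : Set ↥S) (hs : s.Finite)
    (hgen : ∀ B : Subalgebra ℂ ↥S, (∀ r (hr : r ∈ R), (⟨r, hRS hr⟩ : S) ∈ B) → s ⊆ B → B = ⊤) :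
    IsNoetherianRing ↥S ∧ ∀ I : Ideal ↥S,
      (∀ r (hr : r ∈ R), (⟨r, hRS hr⟩ : S) ∈ I → r = 0) →
      ∃ s : R, (s : A) ≠ 0 ∧ ∀ φ : R →ₐ[ℂ] ℂ, φ s ≠ 0 → ∃ ψ : S →ₐ[ℂ] ℂ,
        (∀ r (hr : r ∈ R), ψ ⟨r, hRS hr⟩ = φ ⟨r, hr⟩) ∧ ∀ x ∈ I, ψ x = 0 := by
  letI : Algebra ↥R ↥S := (Subalgebra.inclusion hRS).toRingHom.toAlgebra
  haveI : IsScalarTower ℂ ↥R ↥S := IsScalarTower.of_algebraMap_eq fun _ => rfl
  have hft : Algebra.FiniteType ↥R ↥S := by
    refine ⟨Subalgebra.fg_def.2 ⟨s, hs, ?_⟩⟩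
    have h1 := hgen ((Algebra.adjoin ↥R s).restrictScalars ℂ) (fun r hr =>
      (Algebra.adjoin ↥R s).algebraMap_mem ⟨r, hr⟩) (fun x hx => Algebra.subset_adjoin hx)
    rw [eq_top_iff]
    intro x _
    have : x ∈ (Algebra.adjoin ↥R s).restrictScalars ℂ := by rw [h1]; trivial
    exact this
  refine ⟨Algebra.FiniteType.isNoetherianRing ↥R ↥S, fun I hI => ?_⟩
  have hred : IsReduced ↥R := isReduced_of_injective R.val Subtype.val_injective
  obtain ⟨s, hs, h⟩ := core hL ↥R ↥S hred hn hft inferInstance I (fun r hr => by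
    have := hI r.1 r.2 hr
    exact Subtype.ext this)
  refine ⟨s, fun h0 => hs (Subtype.ext h0), fun φ hφ => ?_⟩
  obtain ⟨ψ, h1, h2⟩ := h φ hφ
  exact ⟨ψ, fun r hr => h1 ⟨r, hr⟩, h2⟩

variable {H : Type} [Group H]

/-- translation as a homomorphism of algebras -/
def trA (g : H) : (H → ℂ) →ₐ[ℂ] (H → ℂ) where
  toFun := tr g
  map_one' := rfl
  map_mul' _ _ := rfl
  map_zero' := rfl
  map_add' _ _ := rfl
  commutes' _ := rfl

lemma trA_apply (g : H) (f : H → ℂ) : trA g f = tr g f := rfl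

lemma tr_tr (g v : H) (f : H → ℂ) : tr g (tr v f) = tr (v * g) f := by
  funext h; simp [tr, mul_assoc]

lemma tr_one (f : H → ℂ) : tr (1 : H) f = f := by
  funext h; simp [tr]

variable {n : ℕ}

/-- translation of matrices -/
noncomputable def tM (g : H) :
    Matrix (Fin n) (Fin n) (H → ℂ) →ₐ[ℂ] Matrix (Fin n) (Fin n) (H → ℂ) := (trA g).mapMatrix

lemma tM_apply (g : H) (X : Matrix (Fin n) (Fin n) (H → ℂ)) (i j : Fin n) :
    tM g X i j = tr g (X i j) := rfl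

lemma tM_tM (g v : H) (X : Matrix (Fin n) (Fin n) (H → ℂ)) : tM g (tM v X) = tM (v * g) X := by
  ext1 i j
  simp only [tM_apply, tr_tr]

lemma tM_one (X : Matrix (Fin n) (Fin n) (H → ℂ)) : tM (1 : H) X = X := by
  ext1 i j
  simp only [tM_apply, tr_one]

section main

variable {R : Subalgebra ℂ (H → ℂ)} {X Y : Matrix (Fin n) (Fin n) (H → ℂ)}

lemma YX (hF : FundF R X Y) : Y * X = 1 := mul_eq_one_comm.1 hF.inv

/-- the cocycle -/
noncomputable def Mc (X Y : Matrix (Fin n) (Fin n) (H → ℂ)) (g : H) :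
    Matrix (Fin n) (Fin n) (H → ℂ) := tM g X * Y

/-- the inverse of the cocycle -/
noncomputable def Mi (X Y : Matrix (Fin n) (Fin n) (H → ℂ)) (g : H) :
    Matrix (Fin n) (Fin n) (H → ℂ) := X * tM g Y

lemma Mc_mem (hF : FundF R X Y) (g : H) (i j : Fin n) : Mc X Y g i j ∈ R := by
  have := hF.coc g i j
  unfold Mc
  rw [Matrix.mul_apply]
  exact this

lemma Mi_mem (hR : TStab R) (hF : FundF R X Y) (g : H) (i j : Fin n) : Mi X Y g i j ∈ R := by
  have h : Mi X Y g = tM g (Mc X Y g⁻¹) := by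
    unfold Mi Mc
    rw [map_mul, tM_tM, inv_mul_cancel, tM_one]
  rw [h, tM_apply]
  exact hR g _ (Mc_mem hF g⁻¹ i j)

lemma tX (hF : FundF R X Y) (g : H) : tM g X = Mc X Y g * X := by
  unfold Mc
  rw [Matrix.mul_assoc, YX hF, Matrix.mul_one]

lemma tY (hF : FundF R X Y) (g : H) : tM g Y = Y * Mi X Y g := by
  unfold Mi
  rw [← Matrix.mul_assoc, YX hF, Matrix.one_mul]

lemma Mi_Mc (hF : FundF R X Y) (g : H) : Mi X Y g * Mc X Y g = 1 := by
  unfold Mi Mc
  have h1 : tM g Y * tM g X = 1 := by rw [← map_mul, YX hF, map_one]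
  calc X * tM g Y * (tM g X * Y) = X * (tM g Y * tM g X) * Y := by
        simp only [Matrix.mul_assoc]
    _ = 1 := by rw [h1, Matrix.mul_one, hF.inv]

lemma hRS : R ≤ matF R X Y := le_sup_left

lemma hXS (i j : Fin n) : X i j ∈ matF R X Y :=
  (le_sup_right : _ ≤ matF R X Y) (Algebra.subset_adjoin ⟨i, j, Or.inl rfl⟩)

lemma hYS (i j : Fin n) : Y i j ∈ matF R X Y :=
  (le_sup_right : _ ≤ matF R X Y) (Algebra.subset_adjoin ⟨i, j, Or.inr rfl⟩)

lemma matF_le {A : Subalgebra ℂ (H → ℂ)} (h1 : R ≤ A) (h2 : ∀ i j, X i j ∈ A)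
    (h3 : ∀ i j, Y i j ∈ A) : matF R X Y ≤ A := by
  refine sup_le h1 (Algebra.adjoin_le ?_)
  rintro x ⟨i, j, rfl | rfl⟩
  · exact h2 i j
  · exact h3 i j

/-- stability under translation -/
lemma stab (hR : TStab R) (hF : FundF R X Y) (g : H) : ∀ f ∈ matF R X Y, tr g f ∈ matF R X Y := by
  have h : matF R X Y ≤ (matF R X Y).comap (trA g) := by
    refine matF_le (fun f hf => hRS (hR g f hf)) (fun i j => ?_) (fun i j => ?_)
    · have h1 : trA g (X i j) = (Mc X Y g * X) i j := by rw [← tX hF]; rfl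
      rw [Subalgebra.mem_comap, h1, Matrix.mul_apply]
      exact sum_mem fun k _ => mul_mem (hRS (Mc_mem hF g i k)) (hXS k j)
    · have h1 : trA g (Y i j) = (Y * Mi X Y g) i j := by rw [← tY hF]; rfl
      rw [Subalgebra.mem_comap, h1, Matrix.mul_apply]
      exact sum_mem fun k _ => mul_mem (hYS i k) (hRS (Mi_mem hR hF g k j))
  exact fun f hf => h hf

/-- the matrices over the extension -/
def XS : Matrix (Fin n) (Fin n) ↥(matF R X Y) := fun i j => ⟨X i j, hXS i j⟩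

def YS : Matrix (Fin n) (Fin n) ↥(matF R X Y) := fun i j => ⟨Y i j, hYS i j⟩

lemma gen (B : Subalgebra ℂ ↥(matF R X Y))
    (h1 : ∀ r (hr : r ∈ R), (⟨r, hRS hr⟩ : ↥(matF R X Y)) ∈ B)
    (h2 : ∀ i j, (⟨X i j, hXS i j⟩ : ↥(matF R X Y)) ∈ B)
    (h3 : ∀ i j, (⟨Y i j, hYS i j⟩ : ↥(matF R X Y)) ∈ B) : B = ⊤ := by
  have h : matF R X Y ≤ B.map (matF R X Y).val := by
    refine matF_le (fun f hf => ?_) (fun i j => ?_) (fun i j => ?_)
    · exact ⟨_, h1 f hf, rfl⟩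
    · exact ⟨_, h2 i j, rfl⟩
    · exact ⟨_, h3 i j, rfl⟩
  rw [eq_top_iff]
  intro x _
  obtain ⟨y, hy, hxy⟩ := h x.2
  have : y = x := Subtype.ext hxy
  rw [← this]
  exact hy

/-- translation on the extension -/
noncomputable def TS (hR : TStab R) (hF : FundF R X Y) (g : H) :
    ↥(matF R X Y) →ₐ[ℂ] ↥(matF R X Y) :=
  ((trA g).comp (matF R X Y).val).codRestrict _ fun f => stab hR hF g f f.2

lemma TS_coe (hR : TStab R) (hF : FundF R X Y) (g : H) (f : ↥(matF R X Y)) :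
    (TS hR hF g f : H → ℂ) = tr g f := rfl

end main

theorem t_SIM : Pool.Agent.Y377.IR.G_SIM := by
  intro hL H _ R hR hRs hN n X Y hF I hI hIt hI0
  classical
  by_contra h1
  have hYX := YX hF
  have hXY := hF.inv
  -- the generators
  set G : Set ↥(matF R X Y) := (Set.range fun p : Fin n × Fin n => (⟨X p.1 p.2, hXS p.1 p.2⟩ :
    ↥(matF R X Y))) ∪ (Set.range fun p : Fin n × Fin n => (⟨Y p.1 p.2, hYS p.1 p.2⟩ :
    ↥(matF R X Y))) with hG
  have hGf : G.Finite := (Set.finite_range _).union (Set.finite_range _)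
  have hgen : ∀ B : Subalgebra ℂ ↥(matF R X Y),
      (∀ r (hr : r ∈ R), (⟨r, hRS hr⟩ : ↥(matF R X Y)) ∈ B) → G ⊆ B → B = ⊤ := by
    intro B hB1 hB2
    exact gen B hB1 (fun i j => hB2 (Or.inl ⟨(i, j), rfl⟩)) (fun i j => hB2 (Or.inr ⟨(i, j), rfl⟩))
  obtain ⟨hNS, hc⟩ := core2 hL R (matF R X Y) hRS hN G hGf hgen
  -- the ideal
  set J : Ideal ↥(matF R X Y) := I.comap (Algebra.linearMap ↥(matF R X Y) (H → ℂ)) with hJ
  have hJm : ∀ f : ↥(matF R X Y), f ∈ J ↔ (f : H → ℂ) ∈ I := fun f => Iff.rfl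
  have hIR : ∀ r (hr : r ∈ R), (⟨r, hRS hr⟩ : ↥(matF R X Y)) ∈ J → r = 0 := by
    intro r hr hrJ
    by_contra hr0
    let J' : Submodule ↥R (H → ℂ) :=
      { carrier := {f | f ∈ R ∧ f ∈ I}
        add_mem' := fun ha hb => ⟨add_mem ha.1 hb.1, add_mem ha.2 hb.2⟩
        zero_mem' := ⟨zero_mem _, zero_mem _⟩
        smul_mem' := fun c f hf => ⟨mul_mem c.2 hf.1,
          I.smul_mem (⟨c.1, hRS c.2⟩ : ↥(matF R X Y)) hf.2⟩ }
    have := hRs J' (fun f hf => hf.1) (fun g f hf => ⟨hR g f hf.1, hIt g f hf.2⟩)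
      ⟨r, ⟨hr, hrJ⟩, hr0⟩
    exact h1 this.2
  obtain ⟨s, hs0, hs⟩ := hc J hIR
  obtain ⟨h0, hh0⟩ : ∃ h0 : H, (s : H → ℂ) h0 ≠ 0 := Function.ne_iff.1 hs0
  obtain ⟨ψ, hψ1, hψ2⟩ := hs ((Pi.evalAlgHom ℂ (fun _ : H => ℂ) h0).comp R.val) hh0
  -- the homomorphism
  set Θ : ↥(matF R X Y) →ₐ[ℂ] (H → ℂ) :=
    AlgHom.pi fun g => ψ.comp (TS hR hF (g * h0⁻¹)) with hΘ
  have Θa : ∀ f g, Θ f g = ψ (TS hR hF (g * h0⁻¹) f) := fun _ _ => rfl
  have ΘR : ∀ r (hr : r ∈ R), Θ ⟨r, hRS hr⟩ = r := by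
    intro r hr
    funext g
    rw [Θa]
    have h2 : TS hR hF (g * h0⁻¹) ⟨r, hRS hr⟩ = ⟨tr (g * h0⁻¹) r, hRS (hR _ r hr)⟩ := rfl
    rw [h2, hψ1 _ (hR _ r hr)]
    change r (g * h0⁻¹ * h0) = r g
    rw [inv_mul_cancel_right]
  have ΘI : ∀ f ∈ J, Θ f = 0 := by
    intro f hf
    funext g
    rw [Θa]
    exact hψ2 _ (hIt _ _ hf)
  have Θt : ∀ (v : H) (f : ↥(matF R X Y)), Θ (TS hR hF v f) = tr v (Θ f) := by
    intro v f
    funext g
    rw [Θa]
    change _ = Θ f (v * g)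
    rw [Θa]
    congr 1
    apply Subtype.ext
    rw [TS_coe, TS_coe, TS_coe, tr_tr, mul_assoc]
  -- matrices
  set XS : Matrix (Fin n) (Fin n) ↥(matF R X Y) := fun i j => ⟨X i j, hXS i j⟩ with hXSd
  set YS : Matrix (Fin n) (Fin n) ↥(matF R X Y) := fun i j => ⟨Y i j, hYS i j⟩ with hYSd
  have hv : ∀ A B : Matrix (Fin n) (Fin n) ↥(matF R X Y),
      (matF R X Y).val.mapMatrix A = (matF R X Y).val.mapMatrix B → A = B := by
    intro A B hAB
    ext1 i j
    exact Subtype.ext (congrFun (congrFun hAB i) j)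
  have vX : (matF R X Y).val.mapMatrix XS = X := rfl
  have vY : (matF R X Y).val.mapMatrix YS = Y := rfl
  have hXYS : XS * YS = 1 := by
    apply hv
    rw [map_mul, vX, vY, map_one, hXY]
  set P := Θ.mapMatrix XS with hP
  set Q := Θ.mapMatrix YS with hQ
  have hPQ : P * Q = 1 := by rw [hP, hQ, ← map_mul, hXYS, map_one]
  have hQP : Q * P = 1 := mul_eq_one_comm.1 hPQ
  have tP : ∀ g, tM g P = Mc X Y g * P := by
    intro g
    set MS : Matrix (Fin n) (Fin n) ↥(matF R X Y) := fun i j => ⟨Mc X Y g i j,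
      hRS (Mc_mem hF g i j)⟩ with hMS
    have e1 : tM g P = Θ.mapMatrix ((TS hR hF g).mapMatrix XS) := by
      ext1 i j
      exact (Θt g (XS i j)).symm
    have e2 : (TS hR hF g).mapMatrix XS = MS * XS := by
      apply hv
      rw [map_mul, vX]
      exact tX hF g
    have e3 : Θ.mapMatrix MS = Mc X Y g := by
      ext1 i j
      exact ΘR _ (Mc_mem hF g i j)
    rw [e1, e2, map_mul, e3]
  have tQ : ∀ g, tM g Q = Q * Mi X Y g := by
    intro g
    set MS : Matrix (Fin n) (Fin n) ↥(matF R X Y) := fun i j => ⟨Mi X Y g i j,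
      hRS (Mi_mem hR hF g i j)⟩ with hMS
    have e1 : tM g Q = Θ.mapMatrix ((TS hR hF g).mapMatrix YS) := by
      ext1 i j
      exact (Θt g (YS i j)).symm
    have e2 : (TS hR hF g).mapMatrix YS = YS * MS := by
      apply hv
      rw [map_mul, vY]
      exact tY hF g
    have e3 : Θ.mapMatrix MS = Mi X Y g := by
      ext1 i j
      exact ΘR _ (Mi_mem hR hF g i j)
    rw [e1, e2, map_mul, e3]
  set C := Y * P with hC
  set D := Q * X with hD
  have tC : ∀ g, tM g C = C := by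
    intro g
    rw [hC, map_mul, tY hF, tP]
    calc Y * Mi X Y g * (Mc X Y g * P) = Y * (Mi X Y g * Mc X Y g) * P := by
          simp only [Matrix.mul_assoc]
      _ = Y * P := by rw [Mi_Mc hF, Matrix.mul_one]
  have tD : ∀ g, tM g D = D := by
    intro g
    rw [hD, map_mul, tX hF, tQ]
    calc Q * Mi X Y g * (Mc X Y g * X) = Q * (Mi X Y g * Mc X Y g) * X := by
          simp only [Matrix.mul_assoc]
      _ = Q * X := by rw [Mi_Mc hF, Matrix.mul_one]
  have hcst : ∀ A : Matrix (Fin n) (Fin n) (H → ℂ), (∀ g, tM g A = A) →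
      ∀ i j, A i j = algebraMap ℂ (H → ℂ) (A i j 1) := by
    intro A hA i j
    funext h
    have h2 : tr h (A i j) = A i j := by rw [← tM_apply, hA]
    have h3 := congrFun h2 1
    simp only [tr, mul_one] at h3
    rw [Pi.algebraMap_apply]
    exact h3
  have cC := hcst C tC
  have cD := hcst D tD
  have eP : P = X * C := by rw [hC, ← Matrix.mul_assoc, hXY, Matrix.one_mul]
  have eQ : Q = D * Y := by rw [hD, Matrix.mul_assoc, hXY, Matrix.mul_one]
  have eX : X = P * D := by rw [hD, ← Matrix.mul_assoc, hPQ, Matrix.one_mul]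
  have eY : Y = C * Q := by rw [hC, Matrix.mul_assoc, hPQ, Matrix.mul_one]
  -- the image
  have hrange : ∀ f, Θ f ∈ matF R X Y := by
    have h2 : (matF R X Y).comap Θ = ⊤ := by
      apply gen
      · intro r hr
        rw [Subalgebra.mem_comap, ΘR r hr]
        exact hRS hr
      · intro i j
        rw [Subalgebra.mem_comap]
        have h3 : Θ ⟨X i j, hXS i j⟩ = (X * C) i j := by rw [← eP]; rfl
        rw [h3, Matrix.mul_apply]
        refine sum_mem fun k _ => mul_mem (hXS i k) ?_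
        rw [cC]
        exact Subalgebra.algebraMap_mem _ _
      · intro i j
        rw [Subalgebra.mem_comap]
        have h3 : Θ ⟨Y i j, hYS i j⟩ = (D * Y) i j := by rw [← eQ]; rfl
        rw [h3, Matrix.mul_apply]
        refine sum_mem fun k _ => mul_mem ?_ (hYS k j)
        rw [cD]
        exact Subalgebra.algebraMap_mem _ _
    intro f
    have : f ∈ (matF R X Y).comap Θ := by rw [h2]; trivial
    exact this
  set Θ' : ↥(matF R X Y) →ₐ[ℂ] ↥(matF R X Y) := Θ.codRestrict _ hrange with hΘ'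
  have Θ'c : ∀ f, (Θ' f : H → ℂ) = Θ f := fun _ => rfl
  have hsurj : Function.Surjective Θ' := by
    rw [← AlgHom.range_eq_top]
    apply gen
    · intro r hr
      exact ⟨⟨r, hRS hr⟩, Subtype.ext (ΘR r hr)⟩
    · intro i j
      refine ⟨∑ k, XS i k * algebraMap ℂ _ (D k j 1), Subtype.ext ?_⟩
      change (Θ (∑ k, XS i k * algebraMap ℂ _ (D k j 1)) : H → ℂ) = X i j
      rw [map_sum]
      conv_rhs => rw [eX, Matrix.mul_apply]
      refine Finset.sum_congr rfl fun k _ => ?_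
      rw [map_mul, AlgHom.commutes, ← cD]
      rfl
    · intro i j
      refine ⟨∑ k, algebraMap ℂ _ (C i k 1) * YS k j, Subtype.ext ?_⟩
      change (Θ (∑ k, algebraMap ℂ _ (C i k 1) * YS k j) : H → ℂ) = Y i j
      rw [map_sum]
      conv_rhs => rw [eY, Matrix.mul_apply]
      refine Finset.sum_congr rfl fun k _ => ?_
      rw [map_mul, AlgHom.commutes, ← cC]
      rfl
  have hinj : Function.Injective Θ'.toRingHom :=
    noeth_inj Θ'.toRingHom hsurj
  obtain ⟨f, hfI, hf0⟩ := hI0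
  have hfS := hI f hfI
  have h3 : Θ' ⟨f, hfS⟩ = 0 := Subtype.ext (ΘI ⟨f, hfS⟩ hfI)
  have h4 : (⟨f, hfS⟩ : ↥(matF R X Y)) = 0 := by
    apply hinj
    change Θ' _ = Θ' 0
    rw [h3, map_zero]
  exact hf0 (congrArg Subtype.val h4)

end Pool.Agent.Y401.IR

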